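import Mathlib

/-!
# Infinitely many `m` with the number of minimal `m`-Markoff triples positive and divisible by three

For a prime `p` consider the numbers `m = 1 + b² + f² + 3 b f` with `b = p (8 i + p)`, `f = p (8 j + p)`.
They are `6` modulo `8`, hence not sums of two squares, and `1` modulo `p²`.  For `2 J² ≤ i < 4 J²` and
`1 ≤ j ≤ J` they are pairwise distinct.  If each of them had a minimal triple of order at most two, then each
would be of the form `2 x² + y² + 3 x² y`, but the congruence modulo `p²` leaves too few pairs `(x, y)`.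
-/

set_option autoImplicit false

namespace Pool.Agent.Results.MP_208885_nt.DivisibleByThree

open Finset

/-- The set of minimal `m`-Markoff triples. -/
def O (m : ℕ) : Set (ℕ × ℕ × ℕ) :=
  {t | 0 < t.1 ∧ t.1 ≤ t.2.1 ∧ t.2.1 ≤ t.2.2 ∧ 3 * t.1 * t.2.1 ≤ t.2.2 ∧
    t.1 ^ 2 + t.2.1 ^ 2 + t.2.2 ^ 2 = 3 * t.1 * t.2.1 * t.2.2 + m}

/-- `m` is of the form `2 x² + y² + 3 x² y`. -/
def Bad (m : ℕ) : Prop := ∃ x y : ℕ, 0 < x ∧ 0 < y ∧ 2 * x ^ 2 + y ^ 2 + 3 * x ^ 2 * y = m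

/-- The increasing triples. -/
def D (m : ℕ) : Finset (ℕ × ℕ × ℕ) :=
  ((range (m + 1)) ×ˢ (range (m + 1)) ×ˢ (range (m + 1))).filter fun t =>
    0 < t.1 ∧ t.1 < t.2.1 ∧ t.2.1 < t.2.2 ∧
    t.1 ^ 2 + t.2.1 ^ 2 + t.2.2 ^ 2 + 3 * t.1 * t.2.1 * t.2.2 = m

lemma mem_D (m : ℕ) (t : ℕ × ℕ × ℕ) : t ∈ D m ↔ 0 < t.1 ∧ t.1 < t.2.1 ∧ t.2.1 < t.2.2 ∧
    t.1 ^ 2 + t.2.1 ^ 2 + t.2.2 ^ 2 + 3 * t.1 * t.2.1 * t.2.2 = m := by
  unfold D
  rw [mem_filter]
  constructor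
  · exact fun h => h.2
  · intro h
    refine ⟨?_, h⟩
    obtain ⟨h0, h1, h2, h3⟩ := h
    have e1 : t.1 ≤ t.1 ^ 2 := by nlinarith
    have e2 : t.2.1 ≤ t.2.1 ^ 2 := by nlinarith
    have e3 : t.2.2 ≤ t.2.2 ^ 2 := by nlinarith
    rw [mem_product, mem_product, mem_range, mem_range, mem_range]
    have e4 : 0 ≤ 3 * t.1 * t.2.1 * t.2.2 := Nat.zero_le _
    refine ⟨?_, ?_, ?_⟩ <;> omega

/-- The three minimal triples from an increasing triple. -/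
def F (u : (ℕ × ℕ × ℕ) × Fin 3) : ℕ × ℕ × ℕ :=
  if u.2 = 0 then (u.1.1, u.1.2.1, 3 * u.1.1 * u.1.2.1 + u.1.2.2)
  else if u.2 = 1 then (u.1.1, u.1.2.2, 3 * u.1.1 * u.1.2.2 + u.1.2.1)
  else (u.1.2.1, u.1.2.2, 3 * u.1.2.1 * u.1.2.2 + u.1.1)

/-- If `m` is not a sum of two squares and not `Bad` then all minimal triples come from increasing ones. -/
lemma O_eq {m : ℕ} (h2 : ∀ a b : ℕ, a ^ 2 + b ^ 2 ≠ m) (hb : ¬ Bad m) :
    O m = ((D m ×ˢ (Finset.univ : Finset (Fin 3))).image F : Finset (ℕ × ℕ × ℕ)) := by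
  ext ⟨a, b, c⟩
  simp only [O, Set.mem_ofPred_eq, coe_image, Set.mem_image, mem_coe, mem_product, mem_univ,
    and_true, mem_D]
  constructor
  · rintro ⟨ha, hab, hbc, hc, heq⟩
    obtain ⟨f, rfl⟩ : ∃ f, c = 3 * a * b + f := ⟨c - 3 * a * b, by omega⟩
    have hm : a ^ 2 + b ^ 2 + f ^ 2 + 3 * a * b * f = m := by nlinarith
    have hf : 0 < f := by
      rcases Nat.eq_zero_or_pos f with h | h
      · exfalso
        rw [h] at hm
        exact h2 a b (by simpa using hm)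
      · exact h
    have hne1 : a ≠ b := by
      intro h
      apply hb
      refine ⟨a, f, ha, hf, ?_⟩
      rw [← hm, ← h]; ring
    have hne2 : a ≠ f := by
      intro h
      apply hb
      refine ⟨a, b, ha, by omega, ?_⟩
      rw [← hm, ← h]; ring
    have hne3 : b ≠ f := by
      intro h
      apply hb
      refine ⟨b, a, by omega, ha, ?_⟩
      rw [← hm, ← h]; ring
    have hab' : a < b := by omega
    rcases lt_or_gt_of_ne hne3 with h3 | h3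
    · refine ⟨((a, b, f), 0), ⟨ha, hab', h3, hm⟩, by simp [F]⟩
    · rcases lt_or_gt_of_ne hne2 with h4 | h4
      · refine ⟨((a, f, b), 1), ⟨ha, h4, h3, by rw [← hm]; ring⟩, by simp [F]⟩
      · refine ⟨((f, a, b), 2), ⟨hf, h4, hab', by rw [← hm]; ring⟩, by simp [F]⟩
  · rintro ⟨⟨⟨x, y, z⟩, i⟩, ⟨hx, hxy, hyz, hm⟩, hF⟩
    simp only at hx hxy hyz hm
    have hpos : 0 < 3 * x * y ∧ 0 < 3 * x * z := ⟨Nat.mul_pos (Nat.mul_pos (by norm_num) hx) (by omega),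
      Nat.mul_pos (Nat.mul_pos (by norm_num) hx) (by omega)⟩
    fin_cases i
    · simp only [F, Fin.zero_eta, if_true, Prod.mk.injEq] at hF
      obtain ⟨rfl, rfl, rfl⟩ := hF
      refine ⟨hx, hxy.le, by nlinarith, by omega, ?_⟩
      nlinarith
    · simp only [F, Fin.mk_one] at hF
      simp only [one_ne_zero, if_false, if_true, Prod.mk.injEq] at hF
      obtain ⟨rfl, rfl, rfl⟩ := hF
      refine ⟨hx, by omega, by nlinarith, by omega, ?_⟩
      nlinarith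
    · have e2 : ((⟨2, by norm_num⟩ : Fin 3) = 2) := rfl
      simp only [F] at hF
      rw [if_neg (by decide), if_neg (by decide)] at hF
      simp only [Prod.mk.injEq] at hF
      obtain ⟨rfl, rfl, rfl⟩ := hF
      refine ⟨by omega, hyz.le, by nlinarith, by omega, ?_⟩
      nlinarith

lemma F_inj (m : ℕ) : Set.InjOn F (D m ×ˢ (Finset.univ : Finset (Fin 3)) : Finset _) := by
  rintro ⟨⟨x, y, z⟩, i⟩ h ⟨⟨x', y', z'⟩, i'⟩ h' hF
  rw [mem_coe, mem_product, mem_D] at h h'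
  obtain ⟨⟨hx, hxy, hyz, hm⟩, -⟩ := h
  obtain ⟨⟨hx', hxy', hyz', hm'⟩, -⟩ := h'
  simp only at hx hxy hyz hm hx' hxy' hyz' hm'
  have e2 : ∀ h : 2 < 3, ((⟨2, h⟩ : Fin 3) = 2) := fun _ => rfl
  fin_cases i <;> fin_cases i' <;>
    simp only [F, Fin.zero_eta, Fin.mk_one, e2, if_true, one_ne_zero, if_false, Prod.mk.injEq,
      show ((2 : Fin 3) = 0) = False by simp, show ((2 : Fin 3) = 1) = False by simp] at hF ⊢ <;>
    obtain ⟨h1, h2, h3⟩ := hF <;> subst h1 <;> subst h2 <;> simp at h3 ⊢ <;> omega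

lemma three_dvd {m : ℕ} (h2 : ∀ a b : ℕ, a ^ 2 + b ^ 2 ≠ m) (hb : ¬ Bad m) :
    3 ∣ (O m).ncard := by
  rw [O_eq h2 hb, Set.ncard_coe_finset, card_image_of_injOn (F_inj m), card_product,
    card_univ, Fintype.card_fin]
  exact Dvd.intro_left _ rfl

lemma dvd_eq {a b c : ℤ} (h : a ∣ b) (e : b = c) : a ∣ c := e ▸ h

/-- A residue class contains at most `R / q + 1` elements of `1, …, R`. -/
lemma card_class {q R : ℕ} (c : ℕ) (A : Finset ℕ) (hA : ∀ x ∈ A, x ≤ R)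
    (hc : ∀ x ∈ A, x % q = c) : A.card ≤ R / q + 1 := by
  have h1 : (A.image (fun x => x / q)) ⊆ range (R / q + 1) := by
    intro t ht
    obtain ⟨x, hx, rfl⟩ := mem_image.1 ht
    rw [mem_range]
    have := Nat.div_le_div_right (c := q) (hA x hx)
    omega
  have h2 : (A.image (fun x => x / q)).card = A.card := by
    apply card_image_of_injOn
    intro x hx y hy hxy
    simp only at hxy
    have e1 := Nat.div_add_mod x q
    have e2 := Nat.div_add_mod y q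
    rw [hc x hx] at e1
    rw [hc y hy] at e2
    rw [← e1, ← e2, hxy]
  calc A.card = _ := h2.symm
    _ ≤ _ := card_le_card h1
    _ = _ := card_range _

/-- Two residue classes. -/
lemma card_two_classes {q R : ℕ} (hq : 0 < q) (A : Finset ℕ) (hA : ∀ x ∈ A, x ≤ R)
    (hc : ∀ x ∈ A, ∀ y ∈ A, x % q = y % q ∨ q ∣ x + y) : A.card ≤ 2 * (R / q + 1) := by
  rcases A.eq_empty_or_nonempty with rfl | ⟨x₀, hx₀⟩
  · simp
  have h1 : A ⊆ A.filter (fun x => x % q = x₀ % q) ∪ A.filter (fun x => q ∣ x + x₀) := by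
    intro x hx
    rw [mem_union, mem_filter, mem_filter]
    rcases hc x hx x₀ hx₀ with h | h
    · exact Or.inl ⟨hx, h⟩
    · exact Or.inr ⟨hx, h⟩
  have h2 : (A.filter (fun x => x % q = x₀ % q)).card ≤ R / q + 1 :=
    card_class (x₀ % q) _ (fun x hx => hA x (mem_filter.1 hx).1)
      (fun x hx => (mem_filter.1 hx).2)
  have h3 : (A.filter (fun x => q ∣ x + x₀)).card ≤ R / q + 1 := by
    refine card_class ((q - x₀ % q) % q) _ (fun x hx => hA x (mem_filter.1 hx).1)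
      (fun x hx => ?_)
    have h4 := (mem_filter.1 hx).2
    have h5 := Nat.mod_lt x₀ hq
    have h6 : (x + x₀ % q) % q = 0 := by
      rw [Nat.add_mod, Nat.mod_mod, ← Nat.add_mod]
      exact Nat.mod_eq_zero_of_dvd h4
    have h7 : (x % q + x₀ % q) % q = 0 := by rw [← Nat.add_mod]; exact Nat.mod_eq_zero_of_dvd h4
    have h8 := Nat.mod_lt x hq
    obtain ⟨t, ht⟩ := Nat.dvd_of_mod_eq_zero h7
    have ht2 : t = 0 ∨ t = 1 := by
      have : q * t < q * 2 := by rw [← ht]; omega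
      have := Nat.lt_of_mul_lt_mul_left this
      omega
    rcases ht2 with rfl | rfl
    · have : x₀ % q = 0 := by omega
      rw [this, Nat.sub_zero, Nat.mod_self]; omega
    · rw [mul_one] at ht
      by_cases h9 : x₀ % q = 0
      · omega
      · have h10 : (q - x₀ % q) % q = q - x₀ % q := Nat.mod_eq_of_lt (by omega)
        rw [h10]; omega
  calc A.card ≤ _ := card_le_card h1
    _ ≤ _ := card_union_le _ _
    _ ≤ _ := by omega

/-- The sum of the inverse square roots. -/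
lemma sum_inv_sqrt (n : ℕ) : ∑ y ∈ Icc 1 n, 1 / √(y : ℝ) ≤ 2 * √(n : ℝ) := by
  induction n with
  | zero => simp
  | succ n ih =>
    rw [← Finset.insert_Icc_right_eq_Icc_add_one (by omega), sum_insert (by simp)]
    have h1 : (0 : ℝ) < √((n + 1 : ℕ) : ℝ) := Real.sqrt_pos.2 (by positivity)
    have h2 : (0 : ℝ) ≤ √(n : ℝ) := Real.sqrt_nonneg _
    have h3 : √((n + 1 : ℕ) : ℝ) ^ 2 = n + 1 := by
      rw [Real.sq_sqrt (by positivity)]; push_cast; ring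
    have h4 : √(n : ℝ) ^ 2 = n := Real.sq_sqrt (by positivity)
    have h5 : 1 / √((n + 1 : ℕ) : ℝ) ≤ 2 * (√((n + 1 : ℕ) : ℝ) - √(n : ℝ)) := by
      rw [div_le_iff₀ h1]
      nlinarith [sq_nonneg (√((n + 1 : ℕ) : ℝ) - √(n : ℝ))]
    linarith

/-- The pairs `(x, y)` of the counting argument. -/
def SS (p Z : ℕ) : Finset (ℕ × ℕ) :=
  (Icc 1 Z ×ˢ Icc 1 Z).filter fun t =>
    3 * t.1 ^ 2 * t.2 ≤ Z ^ 2 ∧ ((p : ℤ) ^ 2) ∣ (3 * t.2 + 2) * (t.1 : ℤ) ^ 2 + (t.2 : ℤ) ^ 2 - 1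

lemma fiber_card (p Z : ℕ) : (SS p Z).card =
    ∑ y ∈ Icc 1 Z, ((SS p Z).filter (fun t => t.2 = y)).card := by
  apply card_eq_sum_card_fiberwise
  intro t ht
  rw [mem_coe] at ht ⊢
  exact (mem_product.1 (mem_filter.1 ht).1).2

/-- the fibre as a set of `x` -/
def fx (p Z y : ℕ) : Finset ℕ :=
  (Icc 1 Z).filter fun x =>
    3 * x ^ 2 * y ≤ Z ^ 2 ∧ ((p : ℤ) ^ 2) ∣ (3 * y + 2) * (x : ℤ) ^ 2 + (y : ℤ) ^ 2 - 1

lemma fiber_eq (p Z y : ℕ) : ((SS p Z).filter (fun t => t.2 = y)).card ≤ (fx p Z y).card := by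
  apply card_le_card_of_injOn (fun t => t.1)
  · intro t ht
    rw [mem_coe, mem_filter, SS, mem_filter, mem_product] at ht
    obtain ⟨⟨⟨h1, h2⟩, h3, h4⟩, rfl⟩ := ht
    rw [mem_coe, fx, mem_filter]
    exact ⟨h1, h3, h4⟩
  · intro t ht t' ht' h
    rw [mem_coe, mem_filter] at ht ht'
    exact Prod.ext h (ht.2.trans ht'.2.symm)

lemma fx_le {p Z y x : ℕ} (hy : 0 < y) (hx : x ∈ fx p Z y) : x ≤ Nat.sqrt (Z ^ 2 / (3 * y)) := by
  rw [fx, mem_filter, mem_Icc] at hx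
  obtain ⟨⟨h1, h2⟩, h3, -⟩ := hx
  rw [Nat.le_sqrt, Nat.le_div_iff_mul_le (by positivity)]
  nlinarith

lemma sqrt_bound {Z y : ℕ} {c : ℝ} (hc : 0 ≤ c) (h : (Z : ℝ) ^ 2 ≤ c ^ 2 * (3 * y)) (hy : 0 < y) :
    (Nat.sqrt (Z ^ 2 / (3 * y)) : ℝ) ≤ c := by
  have h1 : (Nat.sqrt (Z ^ 2 / (3 * y))) ^ 2 * (3 * y) ≤ Z ^ 2 := by
    have e1 := Nat.sqrt_le' (Z ^ 2 / (3 * y))
    have e2 := Nat.div_mul_le_self (Z ^ 2) (3 * y)
    exact (Nat.mul_le_mul_right _ e1).trans e2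
  have h2 : ((Nat.sqrt (Z ^ 2 / (3 * y)) : ℕ) : ℝ) ^ 2 * (3 * y) ≤ (Z : ℝ) ^ 2 := by
    exact_mod_cast h1
  have h3 : (0 : ℝ) < 3 * y := by positivity
  have h4 : ((Nat.sqrt (Z ^ 2 / (3 * y)) : ℕ) : ℝ) ^ 2 ≤ c ^ 2 :=
    le_of_mul_le_mul_right (h2.trans h) h3
  exact (sq_le_sq₀ (Nat.cast_nonneg _) hc).1 h4

/-- The generic fibres. -/
lemma fx_generic {p Z y : ℕ} (hp : p.Prime) (hp2 : p ≠ 2) (hy : 0 < y)
    (hyp : ¬ (p : ℤ) ∣ (y : ℤ) ^ 2 - 1) :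
    (fx p Z y).card ≤ 2 * (Nat.sqrt (Z ^ 2 / (3 * y)) / p ^ 2 + 1) := by
  have hpz : Prime (p : ℤ) := Nat.prime_iff_prime_int.1 hp
  have hpd : (p : ℤ) ∣ (p : ℤ) ^ 2 := dvd_pow_self _ (by norm_num)
  refine card_two_classes (pow_pos hp.pos 2) _ (fun x hx => fx_le hy hx) ?_
  intro x hx x' hx'
  rw [fx, mem_filter] at hx hx'
  have h1 := hx.2.2
  have h2 := hx'.2.2
  have hpx : ¬ (p : ℤ) ∣ x := by
    intro h
    apply hyp
    have e1 := hpd.trans h1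
    have e2 : (p : ℤ) ∣ (3 * (y : ℤ) + 2) * (x : ℤ) ^ 2 :=
      Dvd.dvd.mul_left (h.trans (dvd_pow_self _ (by norm_num))) _
    exact dvd_eq (dvd_sub e1 e2) (by ring)
  have hpy : ¬ (p : ℤ) ∣ 3 * (y : ℤ) + 2 := by
    intro h
    apply hyp
    have e1 := hpd.trans h1
    have e2 : (p : ℤ) ∣ (3 * (y : ℤ) + 2) * (x : ℤ) ^ 2 := Dvd.dvd.mul_right h _
    exact dvd_eq (dvd_sub e1 e2) (by ring)
  have h3 : (p : ℤ) ^ 2 ∣ (3 * (y : ℤ) + 2) * (((x : ℤ) - x') * (x + x')) := by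
    exact dvd_eq (dvd_sub h1 h2) (by ring)
  have h4 : (p : ℤ) ^ 2 ∣ ((x : ℤ) - x') * (x + x') :=
    (((Prime.coprime_iff_not_dvd hpz).2 hpy).pow_left).dvd_of_dvd_mul_left h3
  by_cases h5 : (p : ℤ) ∣ (x : ℤ) - x'
  · have h6 : ¬ (p : ℤ) ∣ (x : ℤ) + x' := by
      intro h6
      have h7 := dvd_add h5 h6
      have h8 : (p : ℤ) ∣ 2 * x := dvd_eq h7 (by ring)
      rcases hpz.dvd_or_dvd h8 with h9 | h9
      · have h10 : p ∣ 2 := by exact_mod_cast h9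
        exact hp2 ((Nat.prime_dvd_prime_iff_eq hp Nat.prime_two).1 h10)
      · exact hpx h9
    left
    have h7 : (p : ℤ) ^ 2 ∣ (x : ℤ) - x' :=
      (((Prime.coprime_iff_not_dvd hpz).2 h6).pow_left).dvd_of_dvd_mul_right h4
    have h8 : (x' : ℤ) ≡ x [ZMOD ((p ^ 2 : ℕ) : ℤ)] := by
      rw [Int.modEq_iff_dvd]; push_cast; exact h7
    exact (Int.natCast_modEq_iff.1 h8).symm
  · right
    have h7 : (p : ℤ) ^ 2 ∣ (x : ℤ) + x' :=
      (((Prime.coprime_iff_not_dvd hpz).2 h5).pow_left).dvd_of_dvd_mul_left h4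
    exact_mod_cast h7

/-- The special fibres. -/
lemma fx_special {p Z y : ℕ} (hp : p.Prime) (hp5 : 5 < p) (hy : 0 < y)
    (hyp : (p : ℤ) ∣ (y : ℤ) ^ 2 - 1) :
    (fx p Z y).card ≤ Nat.sqrt (Z ^ 2 / (3 * y)) / p + 1 ∧
    (¬ (p : ℤ) ^ 2 ∣ (y : ℤ) ^ 2 - 1 → (fx p Z y).card = 0) := by
  have hpz : Prime (p : ℤ) := Nat.prime_iff_prime_int.1 hp
  have hpd : (p : ℤ) ∣ (p : ℤ) ^ 2 := dvd_pow_self _ (by norm_num)
  have hpy : ¬ (p : ℤ) ∣ 3 * (y : ℤ) + 2 := by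
    intro h
    have e1 : (p : ℤ) ∣ 5 := by
      exact dvd_eq (dvd_sub (Dvd.dvd.mul_right h (3 * (y : ℤ) - 2)) (Dvd.dvd.mul_left hyp 9)) (by ring)
    have e2 : p ∣ 5 := by exact_mod_cast e1
    have := Nat.le_of_dvd (by norm_num) e2
    omega
  have key : ∀ x ∈ fx p Z y, (p : ℤ) ∣ x := by
    intro x hx
    rw [fx, mem_filter] at hx
    have e1 := hpd.trans hx.2.2
    have e2 : (p : ℤ) ∣ (3 * (y : ℤ) + 2) * (x : ℤ) ^ 2 := by
      exact dvd_eq (dvd_sub e1 hyp) (by ring)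
    rcases hpz.dvd_or_dvd e2 with h | h
    · exact absurd h hpy
    · exact hpz.dvd_of_dvd_pow h
  refine ⟨?_, fun hnd => ?_⟩
  · refine card_class 0 _ (fun x hx => fx_le hy hx) (fun x hx => ?_)
    have := key x hx
    exact Nat.mod_eq_zero_of_dvd (by exact_mod_cast this)
  · rw [card_eq_zero, eq_empty_iff_forall_notMem]
    intro x hx
    apply hnd
    have e1 := key x hx
    rw [fx, mem_filter] at hx
    have e2 : (p : ℤ) ^ 2 ∣ (3 * (y : ℤ) + 2) * (x : ℤ) ^ 2 :=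
      Dvd.dvd.mul_left (pow_dvd_pow_of_dvd e1 2) _
    exact dvd_eq (dvd_sub hx.2.2 e2) (by ring)

/-- `y ^ 2 ≡ 1` modulo `p ^ 2`. -/
lemma sq_one_cases {p y : ℕ} (hp : p.Prime) (hp5 : 5 < p) (h : (p : ℤ) ^ 2 ∣ (y : ℤ) ^ 2 - 1) :
    (p : ℤ) ^ 2 ∣ (y : ℤ) - 1 ∨ (p : ℤ) ^ 2 ∣ (y : ℤ) + 1 := by
  have hpz : Prime (p : ℤ) := Nat.prime_iff_prime_int.1 hp
  have h4 : (p : ℤ) ^ 2 ∣ ((y : ℤ) - 1) * (y + 1) := dvd_eq h (by ring)
  by_cases h5 : (p : ℤ) ∣ (y : ℤ) - 1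
  · have h6 : ¬ (p : ℤ) ∣ (y : ℤ) + 1 := by
      intro h6
      have h7 := dvd_sub h6 h5
      have h8 : (p : ℤ) ∣ 2 := dvd_eq h7 (by ring)
      have h9 : p ∣ 2 := by exact_mod_cast h8
      have := Nat.le_of_dvd (by norm_num) h9
      omega
    exact Or.inl ((((Prime.coprime_iff_not_dvd hpz).2 h6).pow_left).dvd_of_dvd_mul_right h4)
  · exact Or.inr ((((Prime.coprime_iff_not_dvd hpz).2 h5).pow_left).dvd_of_dvd_mul_left h4)

/-- The special values of `y`. -/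
lemma card_YB {p Z : ℕ} (hp : p.Prime) (hp5 : 5 < p) :
    ((Icc 1 Z).filter (fun y : ℕ => (p : ℤ) ^ 2 ∣ (y : ℤ) ^ 2 - 1)).card ≤ 2 * (Z / p ^ 2 + 1) := by
  refine card_two_classes (pow_pos hp.pos 2) _
    (fun x hx => (mem_Icc.1 (mem_filter.1 hx).1).2) ?_
  intro x hx x' hx'
  have h1 := sq_one_cases hp hp5 (mem_filter.1 hx).2
  have h2 := sq_one_cases hp hp5 (mem_filter.1 hx').2
  have hmod : (p : ℤ) ^ 2 ∣ (x : ℤ) - x' → x % p ^ 2 = x' % p ^ 2 := by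
    intro h7
    have h8 : (x' : ℤ) ≡ x [ZMOD ((p ^ 2 : ℕ) : ℤ)] := by
      rw [Int.modEq_iff_dvd]; push_cast; exact h7
    exact (Int.natCast_modEq_iff.1 h8).symm
  have hadd : (p : ℤ) ^ 2 ∣ (x : ℤ) + x' → p ^ 2 ∣ x + x' := fun h => by exact_mod_cast h
  rcases h1 with h1 | h1 <;> rcases h2 with h2 | h2
  · left; apply hmod
    exact dvd_eq (dvd_sub h1 h2) (by ring)
  · right; apply hadd
    exact dvd_eq (dvd_add h1 h2) (by ring)
  · right; apply hadd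
    exact dvd_eq (dvd_add h1 h2) (by ring)
  · left; apply hmod
    exact dvd_eq (dvd_sub h1 h2) (by ring)

/-- The bound for one fibre. -/
lemma fx_bound {p Z y : ℕ} (hp : p.Prime) (hp5 : 5 < p) (hy : 0 < y) :
    ((fx p Z y).card : ℝ) ≤ 6 / 5 * (Z / p ^ 2) * (1 / √(y : ℝ)) + 2 +
      (if (p : ℤ) ^ 2 ∣ (y : ℤ) ^ 2 - 1 then
        (if y = 1 then (Z : ℝ) / p + 1 else 0) + ((Z : ℝ) / p ^ 2 + 1) else 0) := by
  have hp0 : (0 : ℝ) < p := by exact_mod_cast hp.pos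
  have hZ0 : (0 : ℝ) ≤ Z := Nat.cast_nonneg Z
  have hy0 : (0 : ℝ) < y := by exact_mod_cast hy
  have hsy : (0 : ℝ) < √(y : ℝ) := Real.sqrt_pos.2 hy0
  have hsy2 : √(y : ℝ) ^ 2 = y := Real.sq_sqrt hy0.le
  have hmain : 0 ≤ 6 / 5 * ((Z : ℝ) / p ^ 2) * (1 / √(y : ℝ)) := by positivity
  have hR : (Nat.sqrt (Z ^ 2 / (3 * y)) : ℝ) ≤ 3 / 5 * Z * (1 / √(y : ℝ)) := by
    apply sqrt_bound (by positivity) _ hy
    have : (3 / 5 * (Z : ℝ) * (1 / √(y : ℝ))) ^ 2 * (3 * y) = 27 / 25 * (Z : ℝ) ^ 2 := by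
      rw [mul_pow, mul_pow, div_pow, div_pow, one_pow, hsy2]
      field_simp
      ring
    rw [this]
    nlinarith [sq_nonneg (Z : ℝ)]
  by_cases h1 : (p : ℤ) ∣ (y : ℤ) ^ 2 - 1
  · obtain ⟨h2, h3⟩ := fx_special (Z := Z) hp hp5 hy h1
    by_cases h4 : (p : ℤ) ^ 2 ∣ (y : ℤ) ^ 2 - 1
    · rw [if_pos h4]
      have h5 : ((fx p Z y).card : ℝ) ≤ (Nat.sqrt (Z ^ 2 / (3 * y)) : ℝ) / p + 1 := by
        calc ((fx p Z y).card : ℝ) ≤ ((Nat.sqrt (Z ^ 2 / (3 * y)) / p + 1 : ℕ) : ℝ) := by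
              exact_mod_cast h2
          _ ≤ _ := by
              push_cast
              have := @Nat.cast_div_le ℝ _ _ _ (Nat.sqrt (Z ^ 2 / (3 * y))) p
              linarith
      by_cases h6 : y = 1
      · rw [if_pos h6]
        have h7 : (Nat.sqrt (Z ^ 2 / (3 * y)) : ℝ) ≤ Z := by
          apply sqrt_bound hZ0 _ hy
          rw [h6]; push_cast; nlinarith [sq_nonneg (Z : ℝ)]
        have h8 : (Nat.sqrt (Z ^ 2 / (3 * y)) : ℝ) / p ≤ Z / p :=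
          div_le_div_of_nonneg_right h7 hp0.le
        have h9 : (0 : ℝ) ≤ Z / p ^ 2 := by positivity
        linarith
      · rw [if_neg h6]
        have h7 : p ^ 2 ≤ y + 1 := by
          rcases sq_one_cases hp hp5 h4 with h | h
          · have h8 : (0 : ℤ) < (y : ℤ) - 1 := by omega
            have h9 := Int.le_of_dvd h8 h
            have h10 : ((p ^ 2 : ℕ) : ℤ) ≤ ((y + 1 : ℕ) : ℤ) := by push_cast; linarith
            exact_mod_cast h10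
          · have h8 : (0 : ℤ) < (y : ℤ) + 1 := by omega
            have h9 := Int.le_of_dvd h8 h
            have h10 : ((p ^ 2 : ℕ) : ℤ) ≤ ((y + 1 : ℕ) : ℤ) := by push_cast; linarith
            exact_mod_cast h10
        have h7' : p ^ 2 ≤ 3 * y := by omega
        have h7'' : (p : ℝ) ^ 2 ≤ 3 * y := by exact_mod_cast h7'
        have h8 : (Nat.sqrt (Z ^ 2 / (3 * y)) : ℝ) ≤ Z / p := by
          apply sqrt_bound (by positivity) _ hy
          rw [div_pow, div_mul_eq_mul_div, le_div_iff₀ (by positivity)]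
          exact mul_le_mul_of_nonneg_left h7'' (by positivity)
        have h9 : (Nat.sqrt (Z ^ 2 / (3 * y)) : ℝ) / p ≤ Z / p / p :=
          div_le_div_of_nonneg_right h8 hp0.le
        rw [div_div, ← sq] at h9
        linarith
    · rw [if_neg h4, h3 h4]
      push_cast
      linarith
  · have h4 : ¬ (p : ℤ) ^ 2 ∣ (y : ℤ) ^ 2 - 1 := fun h =>
      h1 ((dvd_pow_self _ (by norm_num)).trans h)
    rw [if_neg h4]
    have h2 := fx_generic (Z := Z) hp (by omega) hy h1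
    have h5 : ((fx p Z y).card : ℝ) ≤ 2 * ((Nat.sqrt (Z ^ 2 / (3 * y)) : ℝ) / p ^ 2 + 1) := by
      calc ((fx p Z y).card : ℝ) ≤ ((2 * (Nat.sqrt (Z ^ 2 / (3 * y)) / p ^ 2 + 1) : ℕ) : ℝ) := by
            exact_mod_cast h2
        _ ≤ _ := by
            push_cast
            have := @Nat.cast_div_le ℝ _ _ _ (Nat.sqrt (Z ^ 2 / (3 * y))) (p ^ 2)
            push_cast at this
            linarith
    have h6 : (Nat.sqrt (Z ^ 2 / (3 * y)) : ℝ) / p ^ 2 ≤ 3 / 5 * Z * (1 / √(y : ℝ)) / p ^ 2 :=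
      div_le_div_of_nonneg_right hR (by positivity)
    have h7 : 6 / 5 * ((Z : ℝ) / p ^ 2) * (1 / √(y : ℝ)) =
        2 * (3 / 5 * Z * (1 / √(y : ℝ)) / p ^ 2) := by ring
    linarith

/-- The number of pairs. -/
lemma card_SS {p Z : ℕ} (hp : p.Prime) (hp5 : 5 < p) :
    ((SS p Z).card : ℝ) ≤ 12 / 5 * (Z / p ^ 2) * √(Z : ℝ) + 2 * Z + (Z / p + 1) +
      2 * ((Z : ℝ) / p ^ 2 + 1) ^ 2 := by
  have hp0 : (0 : ℝ) < p := by exact_mod_cast hp.pos
  have hZ0 : (0 : ℝ) ≤ Z := Nat.cast_nonneg Z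
  rw [fiber_card]
  push_cast
  have h1 : ∀ y ∈ Icc 1 Z, (((SS p Z).filter (fun t => t.2 = y)).card : ℝ) ≤
      6 / 5 * (Z / p ^ 2) * (1 / √(y : ℝ)) + 2 +
      (if (p : ℤ) ^ 2 ∣ (y : ℤ) ^ 2 - 1 then
        (if y = 1 then (Z : ℝ) / p + 1 else 0) + ((Z : ℝ) / p ^ 2 + 1) else 0) := by
    intro y hy
    have h2 : (((SS p Z).filter (fun t => t.2 = y)).card : ℝ) ≤ ((fx p Z y).card : ℝ) := by
      exact_mod_cast fiber_eq p Z y
    exact h2.trans (fx_bound hp hp5 (by have := (mem_Icc.1 hy).1; omega))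
  refine (sum_le_sum h1).trans ?_
  rw [sum_add_distrib, sum_add_distrib, ← mul_sum]
  have h2 : 6 / 5 * ((Z : ℝ) / p ^ 2) * ∑ y ∈ Icc 1 Z, 1 / √(y : ℝ) ≤
      12 / 5 * (Z / p ^ 2) * √(Z : ℝ) := by
    have := mul_le_mul_of_nonneg_left (sum_inv_sqrt Z)
      (show (0 : ℝ) ≤ 6 / 5 * ((Z : ℝ) / p ^ 2) by positivity)
    calc _ ≤ _ := this
      _ = _ := by ring
  have h3 : ∑ _y ∈ Icc 1 Z, (2 : ℝ) = 2 * Z := by
    rw [sum_const, Nat.card_Icc, nsmul_eq_mul, Nat.add_sub_cancel]; ring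
  have h4 : ∑ y ∈ Icc 1 Z, (if (p : ℤ) ^ 2 ∣ (y : ℤ) ^ 2 - 1 then
        (if y = 1 then (Z : ℝ) / p + 1 else 0) + ((Z : ℝ) / p ^ 2 + 1) else 0) ≤
      (Z / p + 1) + 2 * ((Z : ℝ) / p ^ 2 + 1) ^ 2 := by
    rw [← sum_filter, sum_add_distrib]
    have e1 : ∑ y ∈ (Icc 1 Z).filter (fun y : ℕ => (p : ℤ) ^ 2 ∣ (y : ℤ) ^ 2 - 1),
        (if y = 1 then (Z : ℝ) / p + 1 else 0) ≤ Z / p + 1 := by
      rw [sum_ite_eq']
      split_ifs
      · exact le_rfl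
      · positivity
    have e2 : ∑ _y ∈ (Icc 1 Z).filter (fun y : ℕ => (p : ℤ) ^ 2 ∣ (y : ℤ) ^ 2 - 1),
        ((Z : ℝ) / p ^ 2 + 1) ≤ 2 * ((Z : ℝ) / p ^ 2 + 1) ^ 2 := by
      rw [sum_const, nsmul_eq_mul]
      have e3 : (((Icc 1 Z).filter (fun y : ℕ => (p : ℤ) ^ 2 ∣ (y : ℤ) ^ 2 - 1)).card : ℝ) ≤
          2 * ((Z : ℝ) / p ^ 2 + 1) := by
        calc _ ≤ ((2 * (Z / p ^ 2 + 1) : ℕ) : ℝ) := by exact_mod_cast card_YB hp hp5
          _ ≤ _ := by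
            push_cast
            have := @Nat.cast_div_le ℝ _ _ _ Z (p ^ 2)
            push_cast at this
            linarith
      have e4 : (0 : ℝ) ≤ (Z : ℝ) / p ^ 2 + 1 := by positivity
      nlinarith
    exact add_le_add e1 e2
  linarith

/-- The values of the family. -/
def mm (p i j : ℕ) : ℕ :=
  1 + (p * (8 * i + p)) ^ 2 + (p * (8 * j + p)) ^ 2 + 3 * (p * (8 * i + p)) * (p * (8 * j + p))

/-- The members of the family are `6` modulo `8`. -/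
lemma mm_mod {p : ℕ} (hp : p % 2 = 1) (i j : ℕ) : mm p i j % 8 = 6 := by
  have h8 : ∀ t : ℕ, (p * (8 * t + p)) % 8 = 1 := by
    intro t
    have h1 : p % 8 = 1 ∨ p % 8 = 3 ∨ p % 8 = 5 ∨ p % 8 = 7 := by omega
    have h2 : (8 * t + p) % 8 = p % 8 := by omega
    rw [Nat.mul_mod, h2]
    rcases h1 with h | h | h | h <;> rw [h]
  unfold mm
  have e1 := h8 i
  have e2 := h8 j
  generalize p * (8 * i + p) = b at *
  generalize p * (8 * j + p) = f at *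
  simp [Nat.add_mod, Nat.pow_mod, Nat.mul_mod, e1, e2]

lemma not_sum_sq {m : ℕ} (hm : m % 8 = 6) (a b : ℕ) : a ^ 2 + b ^ 2 ≠ m := by
  intro h
  have h1 : (a ^ 2 + b ^ 2) % 8 = 6 := by rw [h]; exact hm
  have h2 : ∀ t : ℕ, t ^ 2 % 8 = 0 ∨ t ^ 2 % 8 = 1 ∨ t ^ 2 % 8 = 4 := by
    intro t
    have h3 : t % 8 = 0 ∨ t % 8 = 1 ∨ t % 8 = 2 ∨ t % 8 = 3 ∨ t % 8 = 4 ∨ t % 8 = 5 ∨ t % 8 = 6 ∨
        t % 8 = 7 := by omega
    rcases h3 with h | h | h | h | h | h | h | h <;> simp [Nat.pow_mod, h]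
  have := h2 a
  have := h2 b
  omega

/-- The members of the family are distinct. -/
lemma mm_inj {p J i j i' j' : ℕ} (hp : 0 < p) (hpJ : p ≤ J) (hi : 2 * J ^ 2 ≤ i)
    (hi' : 2 * J ^ 2 ≤ i') (hj : j ≤ J) (hj' : j' ≤ J) (h : mm p i j = mm p i' j') :
    i = i' ∧ j = j' := by
  have hp0 : (0 : ℤ) < p := by exact_mod_cast hp
  have h1 : ((16 * i + 24 * j + 5 * p : ℤ)) ^ 2 - 5 * (8 * j + p) ^ 2 =
      (16 * i' + 24 * j' + 5 * p : ℤ) ^ 2 - 5 * (8 * j' + p) ^ 2 := by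
    have h2 : ((mm p i j : ℕ) : ℤ) = ((mm p i' j' : ℕ) : ℤ) := by rw [h]
    unfold mm at h2
    push_cast at h2
    have h3 : (p : ℤ) ^ 2 * (((16 * i + 24 * j + 5 * p : ℤ)) ^ 2 - 5 * (8 * j + p) ^ 2) =
        (p : ℤ) ^ 2 * ((16 * i' + 24 * j' + 5 * p : ℤ) ^ 2 - 5 * (8 * j' + p) ^ 2) := by
      linear_combination 4 * h2
    exact mul_left_cancel₀ (by positivity) h3
  have key : ∀ a b a' b' : ℤ, (2 * (J : ℤ) ^ 2 ≤ a) → (2 * (J : ℤ) ^ 2 ≤ a') → (0 ≤ b) → (0 ≤ b') →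
      (b ≤ J) → (b' ≤ J) → (16 * a + 24 * b + 5 * p : ℤ) ^ 2 - 5 * (8 * b + p) ^ 2 =
      (16 * a' + 24 * b' + 5 * p : ℤ) ^ 2 - 5 * (8 * b' + p) ^ 2 →
      ¬ (16 * a + 24 * b + 5 * p < 16 * a' + 24 * b' + 5 * p) := by
    intro a b a' b' ha ha' hb hb' hbJ hbJ' heq hlt
    have hJ : (p : ℤ) ≤ J := by exact_mod_cast hpJ
    have e1 : 16 * a + 24 * b + 5 * p + 8 ≤ 16 * a' + 24 * b' + 5 * p := by omega
    have e2 : 32 * (J : ℤ) ^ 2 ≤ 16 * a + 24 * b + 5 * p := by linarith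
    have e3 : (8 * b' + p : ℤ) ^ 2 ≤ (9 * J) ^ 2 := pow_le_pow_left₀ (by linarith) (by linarith) 2
    have e4 : (0 : ℤ) ≤ (8 * b + p) ^ 2 := sq_nonneg _
    have e5 : (16 * a + 24 * b + 5 * p + 8 : ℤ) ^ 2 ≤ (16 * a' + 24 * b' + 5 * p) ^ 2 :=
      pow_le_pow_left₀ (by linarith [sq_nonneg (J : ℤ)]) e1 2
    have hJ0 : (0 : ℤ) < J := by linarith
    have e6 : (0 : ℤ) < (J : ℤ) ^ 2 := by positivity
    nlinarith
  have h1' : (2 * (J : ℤ) ^ 2 ≤ i) := by exact_mod_cast hi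
  have h2' : (2 * (J : ℤ) ^ 2 ≤ i') := by exact_mod_cast hi'
  have h3' : (j : ℤ) ≤ J := by exact_mod_cast hj
  have h4' : (j' : ℤ) ≤ J := by exact_mod_cast hj'
  have k1 := key i j i' j' h1' h2' (Nat.cast_nonneg _) (Nat.cast_nonneg _) h3' h4' h1
  have k2 := key i' j' i j h2' h1' (Nat.cast_nonneg _) (Nat.cast_nonneg _) h4' h3' h1.symm
  have h5 : (16 * i + 24 * j + 5 * p : ℤ) = 16 * i' + 24 * j' + 5 * p := by omega
  rw [h5] at h1
  have h6 : ((8 * j + p : ℤ)) ^ 2 = (8 * j' + p) ^ 2 := by linarith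
  have h7 : ((8 * j + p : ℤ)) = 8 * j' + p := by
    rcases sq_eq_sq_iff_eq_or_eq_neg.1 h6 with h | h
    · exact h
    · exfalso
      have : (0 : ℤ) ≤ j := Nat.cast_nonneg _
      have : (0 : ℤ) ≤ j' := Nat.cast_nonneg _
      linarith
  omega

/-- The size of the members of the family. -/
lemma mm_le {p J i j : ℕ} (hpJ : p ≤ J) (hJ : 9 ≤ J) (hi : i ≤ 4 * J ^ 2) (hj : j ≤ J) :
    mm p i j ≤ (46 * p * J ^ 2) ^ 2 + 1 := by
  unfold mm
  have h1 : 8 * i + p ≤ 33 * J ^ 2 := by nlinarith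
  have h2 : 8 * j + p ≤ J ^ 2 := by nlinarith
  have h3 : p * (8 * i + p) ≤ p * (33 * J ^ 2) := Nat.mul_le_mul_left _ h1
  have h4 : p * (8 * j + p) ≤ p * J ^ 2 := Nat.mul_le_mul_left _ h2
  generalize p * (8 * i + p) = b at *
  generalize p * (8 * j + p) = f at *
  have h5 : b ^ 2 ≤ (p * (33 * J ^ 2)) ^ 2 := Nat.pow_le_pow_left h3 2
  have h6 : f ^ 2 ≤ (p * J ^ 2) ^ 2 := Nat.pow_le_pow_left h4 2
  have h7 : b * f ≤ (p * (33 * J ^ 2)) * (p * J ^ 2) := Nat.mul_le_mul h3 h4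
  nlinarith

/-- One member of the family without minimal triples of order at most two. -/
lemma exists_good {p : ℕ} (hp : p.Prime) (hpbig : 10 ^ 8 < p) :
    ∃ i j : ℕ, 0 < i ∧ 0 < j ∧ j < i ∧ ¬ Bad (mm p i j) := by
  by_contra hcon
  push Not at hcon
  set J : ℕ := 1000 * p with hJd
  set Z : ℕ := 46 * p * J ^ 2 with hZd
  have hp0 : 0 < p := hp.pos
  have hJ0 : 0 < J := by positivity
  have hbad : ∀ t ∈ Ico (2 * J ^ 2) (4 * J ^ 2) ×ˢ Icc 1 J, Bad (mm p t.1 t.2) := by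
    intro t ht
    rw [mem_product, mem_Ico, mem_Icc] at ht
    obtain ⟨⟨h1, h2⟩, h3, h4⟩ := ht
    refine hcon t.1 t.2 ?_ (by omega) ?_
    · nlinarith
    · nlinarith
  choose! x y hx hy hxy using hbad
  -- the injection
  have hcard : (Ico (2 * J ^ 2) (4 * J ^ 2) ×ˢ Icc 1 J).card ≤ (SS p Z).card := by
    apply card_le_card_of_injOn (fun t => (x t, y t))
    · intro t ht
      rw [mem_coe] at ht
      have h0 := hxy t ht
      have hx' := hx t ht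
      have hy' := hy t ht
      rw [mem_product, mem_Ico, mem_Icc] at ht
      obtain ⟨⟨h1, h2⟩, h3, h4⟩ := ht
      have h5 := mm_le (p := p) (J := J) (i := t.1) (j := t.2) (by omega) (by omega) (by omega) h4
      rw [← hZd, ← h0] at h5
      have hx1 : 1 ≤ x t ^ 2 := Nat.one_le_pow _ _ hx'
      have hy1 : 1 ≤ y t ^ 2 := Nat.one_le_pow _ _ hy'
      have hxz : x t ≤ Z := by
        have : x t ^ 2 ≤ Z ^ 2 := by omega
        exact (Nat.pow_le_pow_iff_left (by norm_num)).1 this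
      have hyz : y t ≤ Z := by
        have : y t ^ 2 ≤ Z ^ 2 := by omega
        exact (Nat.pow_le_pow_iff_left (by norm_num)).1 this
      rw [mem_coe, SS, mem_filter, mem_product, mem_Icc, mem_Icc]
      refine ⟨⟨⟨hx', hxz⟩, hy', hyz⟩, by simp only; omega, ?_⟩
      simp only
      have h6 : (3 * ((y t : ℕ) : ℤ) + 2) * ((x t : ℕ) : ℤ) ^ 2 + ((y t : ℕ) : ℤ) ^ 2 - 1 =
          (p : ℤ) ^ 2 * ((8 * t.1 + p) ^ 2 + (8 * t.2 + p) ^ 2 +
            3 * (8 * t.1 + p) * (8 * t.2 + p)) := by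
        have h7 : ((2 * x t ^ 2 + y t ^ 2 + 3 * x t ^ 2 * y t : ℕ) : ℤ) =
            ((mm p t.1 t.2 : ℕ) : ℤ) := by rw [h0]
        unfold mm at h7
        push_cast at h7
        linear_combination h7
      rw [h6]
      exact Dvd.intro _ rfl
    · intro t ht t' ht' h
      rw [mem_coe] at ht ht'
      have h0 := hxy t ht
      have h0' := hxy t' ht'
      simp only [Prod.mk.injEq] at h
      rw [h.1, h.2, h0'] at h0
      rw [mem_product, mem_Ico, mem_Icc] at ht ht'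
      have := mm_inj (p := p) (J := J) hp0 (by omega) ht.1.1 ht'.1.1 ht.2.2 ht'.2.2 h0.symm
      exact Prod.ext this.1 this.2
  rw [card_product, Nat.card_Ico, Nat.card_Icc, Nat.add_sub_cancel] at hcard
  have hcard' : 2 * J ^ 3 ≤ (SS p Z).card := by
    calc 2 * J ^ 3 = (4 * J ^ 2 - 2 * J ^ 2) * J := by
          have : 4 * J ^ 2 - 2 * J ^ 2 = 2 * J ^ 2 := by omega
          rw [this]; ring
      _ ≤ _ := hcard
  have hreal : (2 * (J : ℝ) ^ 3) ≤ ((SS p Z).card : ℝ) := by exact_mod_cast hcard'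
  have hbound := card_SS (p := p) (Z := Z) hp (by omega)
  have hpr : (10 : ℝ) ^ 8 < p := by exact_mod_cast hpbig
  have hpr0 : (0 : ℝ) < p := by linarith
  have hJr : (J : ℝ) = 1000 * p := by rw [hJd]; push_cast; ring
  have hZr : (Z : ℝ) = 46000000 * p ^ 3 := by
    rw [hZd, hJd]; push_cast; ring
  set s : ℝ := √(p : ℝ) with hs
  have hs2 : s ^ 2 = p := Real.sq_sqrt hpr0.le
  have hs0 : 0 < s := Real.sqrt_pos.2 hpr0
  have hs4 : (10 : ℝ) ^ 4 < s := by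
    rw [hs]
    apply Real.lt_sqrt_of_sq_lt
    norm_num at hpr ⊢
    exact hpr
  have hsZ : √(Z : ℝ) ≤ 6800 * s ^ 3 := by
    rw [Real.sqrt_le_left (by positivity), hZr, ← hs2]
    nlinarith [pow_pos hs0 6]
  rw [hJr] at hreal
  have h1 : (Z : ℝ) / p ^ 2 = 46000000 * s ^ 2 := by
    rw [hZr, hs2]; field_simp
  have h2 : (Z : ℝ) / p = 46000000 * s ^ 4 := by
    rw [hZr, show s ^ 4 = (s ^ 2) ^ 2 by ring, hs2]; field_simp
  rw [h1, h2, hZr, ← hs2] at hbound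
  rw [← hs2] at hreal
  have h3 : 12 / 5 * (46000000 * s ^ 2) * √(Z : ℝ) ≤ 12 / 5 * (46000000 * s ^ 2) * (6800 * s ^ 3) :=
    mul_le_mul_of_nonneg_left hsZ (by positivity)
  rw [hZr, ← hs2] at h3
  have h4 : 2 * (1000 * s ^ 2) ^ 3 ≤ 12 / 5 * (46000000 * s ^ 2) * (6800 * s ^ 3) +
      2 * (46000000 * (s ^ 2) ^ 3) + (46000000 * s ^ 4 + 1) + 2 * (46000000 * s ^ 2 + 1) ^ 2 := by
    linarith
  have h5 : (1 : ℝ) ≤ s ^ 2 := by nlinarith
  have h6 : (46000000 * s ^ 2 + 1) ^ 2 ≤ (47000000 * s ^ 2) ^ 2 :=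
    pow_le_pow_left₀ (by positivity) (by nlinarith) 2
  -- divide by `s ^ 4`
  have h7 : (0 : ℝ) < s ^ 4 := by positivity
  have h8 : (2 * 10 ^ 9 * s ^ 2) * s ^ 4 ≤ (12 / 5 * 46000000 * 6800 * s + 92000000 * s ^ 2 +
      46000000 + 1 + 2 * 47000000 ^ 2) * s ^ 4 := by
    have h9 : (1 : ℝ) ≤ s ^ 4 := by nlinarith
    nlinarith
  have h9 := le_of_mul_le_mul_right h8 h7
  nlinarith

/-- **Q1.**  There are infinitely many `m > 1` for which the number of minimal `m`-Markoff triples is positive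
and divisible by three. -/
theorem result : {m : ℕ | 1 < m ∧ (O m).Nonempty ∧ (O m).Finite ∧ 3 ∣ (O m).ncard}.Infinite := by
  rw [Set.infinite_iff_exists_gt]
  intro N
  obtain ⟨p, hp1, hp⟩ := Nat.exists_infinite_primes (N + 10 ^ 8 + 1)
  obtain ⟨i, j, hi, hj, hij, hgood⟩ := exists_good hp (by omega)
  have hodd : p % 2 = 1 := by
    rcases hp.eq_two_or_odd with h | h
    · omega
    · exact h
  have h2 : ∀ a b : ℕ, a ^ 2 + b ^ 2 ≠ mm p i j := not_sum_sq (mm_mod hodd i j)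
  have hgt : N < mm p i j := by
    unfold mm
    have h1 : p ≤ p * (8 * i + p) := Nat.le_mul_of_pos_right _ (by omega)
    have h3 : p * (8 * i + p) ≤ (p * (8 * i + p)) ^ 2 := by
      rw [sq]; exact Nat.le_mul_of_pos_right _ (by omega)
    have h4 : 0 ≤ 3 * (p * (8 * i + p)) * (p * (8 * j + p)) := Nat.zero_le _
    have h5 : 0 ≤ (p * (8 * j + p)) ^ 2 := Nat.zero_le _
    omega
  refine ⟨mm p i j, ⟨?_, ?_, ?_, three_dvd h2 hgood⟩, hgt⟩
  · unfold mm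
    have h1 : 0 < p * (8 * i + p) := Nat.mul_pos hp.pos (by omega)
    have h2 : 0 < (p * (8 * i + p)) ^ 2 := by positivity
    omega
  · -- a triple
    set b := p * (8 * i + p) with hb
    set f := p * (8 * j + p) with hf
    refine ⟨(1, b, 3 * b + f), ?_⟩
    have hb1 : 0 < b := Nat.mul_pos hp.pos (by omega)
    simp only [O, Set.mem_ofPred_eq]
    refine ⟨one_pos, hb1, by omega, by omega, ?_⟩
    have : mm p i j = 1 + b ^ 2 + f ^ 2 + 3 * b * f := rfl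
    rw [this]; ring
  · rw [O_eq h2 hgood]
    exact Finset.finite_toSet _

end Pool.Agent.Results.MP_208885_nt.DivisibleByThree
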